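import Pool.Agent.E8helper29.FILL.Main

/-!
# Filling functions of stratified Lie groups: the product of the exponents

Let `G` be a non-abelian stratified Lie group of dimension `n` and homogeneous dimension
`Q = ∑ j dim V_j > n`. If the filling function `FV^(k+1)` of `G` grows at most like the power `e_k`
for `k = 1, …, n - 1`, then `e_1 e_2 ⋯ e_(n-1) ≥ Q`. (For the Heisenberg groups of all dimensions
there is equality.) The Euclidean exponents `(k+1)/k` have product `n < Q`, so at least one of the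
filling functions is super-Euclidean.

Proof idea. Fill the simplices with vertices at distance `O(s)` by induction on the dimension, with
mass `O(s^(e_1 ⋯ e_(k-1)))` in dimension `k`. The signed volume of the top dimensional chains is a
cocycle, cohomologous through a bounded cochain to the signed volume of straight simplices. Rescale
by the dilation with factor `s`, which divides volumes by `s^Q`: if the product of the exponents
were less than `Q`, the volume cocycle at scale `1` would be cohomologous through bounded cochains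
to arbitrarily small cochains. As the volume growth is polynomial this is impossible. A Baire
category argument shows that dilated points are at distance `O(s)`.
-/

set_option autoImplicit false

namespace Pool.Agent.Results.MP_b8ac35_gt.ProductOfExponentsH29

open Pool.Agent.TH630 Pool.Agent.E8helper29.FILL

/-- The filling function `FV^(k+1)` in dimension `k` is super-Euclidean: it is not `≼ r^((k+1)/k)`,
where `f ≼ g` means that `f(r) ≤ C g(C r + C) + C r + C` for some `C > 0` and all `r ≥ 0`. -/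
def SuperEuclidean {n : ℕ} (G : StratLaw n) (B : Matrix (Fin n) (Fin n) ℝ) (k : ℕ) : Prop :=
  ¬ ∃ C : ℝ, 0 < C ∧ ∀ r : ℝ, 0 ≤ r →
    G.FV B k r ≤ ENNReal.ofReal (C * (C * r + C) ^ (((k : ℝ) + 1) / k) + C * r + C)

theorem prod_euclid (m : ℕ) :
    ∏ k ∈ Finset.Ico 1 (m + 1), (((k : ℝ) + 1) / k) = ((m + 1 : ℕ) : ℝ) := by
  induction m with
  | zero => simp
  | succ m ih =>
    rw [Finset.prod_Ico_succ_top (by omega), ih]
    push_cast
    field_simp

/-- **Theorem.** Let `G` be a non-abelian stratified Lie group of dimension `n` with a left-invariant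
Riemannian metric `B` and let `Q` be its homogeneous dimension. Then `Q > n`; if
`FV^(k+1)(r) ≤ C_k (1 + r)^(e_k)` for all `r ≥ 0` and `k = 1, …, n - 1`, then
`∏ e_k ≥ Q`; and the filling function of `G` in some dimension `k` with `1 ≤ k ≤ n - 1` is
super-Euclidean. -/
theorem result {n : ℕ} (G : StratLaw n) (hG : ∃ x y, G.mul x y ≠ G.mul y x)
    (B : Matrix (Fin n) (Fin n) ℝ) (hB : B.PosDef) :
    n < G.homDim ∧
    (∀ e : ℕ → ℝ, (∀ k, 1 ≤ k → k + 1 ≤ n → 0 ≤ e k ∧ ∃ C : ℝ, ∀ r : ℝ, 0 ≤ r →
        G.FV B k r ≤ ENNReal.ofReal (C * (1 + r) ^ (e k))) →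
      (G.homDim : ℝ) ≤ ∏ k ∈ Finset.Ico 1 n, e k) ∧
    ∃ k : ℕ, 1 ≤ k ∧ k + 1 ≤ n ∧ SuperEuclidean G B k := by
  have hQ := G.lt_homDim hG
  have hprod : ∀ e : ℕ → ℝ, (∀ k, 1 ≤ k → k + 1 ≤ n → 0 ≤ e k ∧ ∃ C : ℝ, ∀ r : ℝ, 0 ≤ r →
        G.FV B k r ≤ ENNReal.ofReal (C * (1 + r) ^ (e k))) →
      (G.homDim : ℝ) ≤ ∏ k ∈ Finset.Ico 1 n, e k :=
    fun e he => homDim_le_prod G hG B hB e he
  refine ⟨hQ, hprod, ?_⟩
  by_contra hcon
  push Not at hcon
  have h1 := hprod (fun k => ((k : ℝ) + 1) / k) (fun k hk1 hk2 => by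
    refine ⟨by positivity, ?_⟩
    have h2 := hcon k hk1 hk2
    rw [SuperEuclidean, not_not] at h2
    obtain ⟨C, hC0, hC⟩ := h2
    refine ⟨C * C ^ (((k : ℝ) + 1) / k) + C, fun r hr => (hC r hr).trans
      (ENNReal.ofReal_le_ofReal ?_)⟩
    have hk0 : (0 : ℝ) < k := by exact_mod_cast hk1
    have hp : 1 ≤ ((k : ℝ) + 1) / k := by
      rw [le_div_iff₀ hk0]
      linarith
    have h3 : C * r + C = C * (1 + r) := by ring
    have h4 : (1 + r) ≤ (1 + r) ^ (((k : ℝ) + 1) / k) := by
      calc (1 + r) = (1 + r) ^ (1 : ℝ) := (Real.rpow_one _).symm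
        _ ≤ _ := Real.rpow_le_rpow_of_exponent_le (by linarith) hp
    rw [add_assoc, h3, Real.mul_rpow hC0.le (by linarith)]
    nlinarith [mul_le_mul_of_nonneg_left h4 hC0.le])
  obtain ⟨m, rfl⟩ : ∃ m, n = m + 1 := by
    rcases n with _ | m
    · obtain ⟨x, y, hxy⟩ := hG
      exact absurd (Subsingleton.elim _ _) hxy
    · exact ⟨m, rfl⟩
  rw [prod_euclid] at h1
  have h2 : G.homDim ≤ m + 1 := by exact_mod_cast h1
  omega

end Pool.Agent.Results.MP_b8ac35_gt.ProductOfExponentsH29
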